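import Mathlib

/-! MP_6bc8af_co, linear bound, TASK C06: greedy selection and packing (natural numbers only). -/

namespace LC.Lin

/-- the positions of `U` are far from each other -/
def Spread (r : ℕ → ℕ) (U : Finset ℕ) : Prop :=
  ∀ u ∈ U, ∀ u' ∈ U, u < u' → u + 200 * r u < u' ∧ u + 200 * r u' < u'

/-- Greedy selection.

PROOF. Strong induction on `T.card`. If `T = ∅` take `U = ∅`. Otherwise let `u ∈ T` have `r u` maximal, and `T'` the set of the `v ∈ T` with
`u + 200 r u < v` or `v + 200 r u < u`. Then `T.card ≤ T'.card + (400 r u + 1) ≤ T'.card + 401 r u` (the others are in `[u - 200 r u, u + 200 r u]`), `u ∉ T'`. Take `U'` for `T'`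
and `U = insert u U'`. -/
theorem greedy (r : ℕ → ℕ) (T : Finset ℕ) (hr : ∀ u ∈ T, 1 ≤ r u) :
    ∃ U ⊆ T, Spread r U ∧ T.card ≤ ∑ u ∈ U, 401 * r u := by
  induction T using Finset.strongInduction with
  | H T ih =>
    rcases T.eq_empty_or_nonempty with hT | hT
    · subst hT
      exact ⟨∅, Finset.Subset.refl _, fun u hu => absurd hu (Finset.notMem_empty u), by simp⟩
    · obtain ⟨u, hu, hmax⟩ := Finset.exists_max_image T r hT
      have hsub : T.filter (fun v => u + 200 * r u < v ∨ v + 200 * r u < u) ⊆ T :=
        Finset.filter_subset _ _
      have hu' : u ∉ T.filter (fun v => u + 200 * r u < v ∨ v + 200 * r u < u) := by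
        intro h
        rw [Finset.mem_filter] at h
        omega
      have hss : T.filter (fun v => u + 200 * r u < v ∨ v + 200 * r u < u) ⊂ T :=
        (Finset.ssubset_iff_of_subset hsub).mpr ⟨u, hu, hu'⟩
      obtain ⟨U', hU', hsp, hcard⟩ := ih _ hss fun v hv => hr v (hsub hv)
      have huU : u ∉ U' := fun h => hu' (hU' h)
      refine ⟨insert u U', ?_, ?_, ?_⟩
      · intro v hv
        rcases Finset.mem_insert.mp hv with h | h
        · rw [h]
          exact hu
        · exact hsub (hU' h)
      · intro a ha b hb hab
        rcases Finset.mem_insert.mp ha with h | h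
        · rcases Finset.mem_insert.mp hb with h' | h'
          · omega
          · have h1 := hmax b (hsub (hU' h'))
            have h2 := hU' h'
            rw [Finset.mem_filter] at h2
            subst h
            omega
        · rcases Finset.mem_insert.mp hb with h' | h'
          · have h1 := hmax a (hsub (hU' h))
            have h2 := hU' h
            rw [Finset.mem_filter] at h2
            subst h'
            omega
          · exact hsp a h b h' hab
      · rw [Finset.sum_insert huU]
        have h1 := Finset.card_filter_add_card_filter_not (s := T)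
          (fun v => u + 200 * r u < v ∨ v + 200 * r u < u)
        have h2 : (T.filter (fun v => ¬ (u + 200 * r u < v ∨ v + 200 * r u < u))).card ≤
            (Finset.Icc (u - 200 * r u) (u + 200 * r u)).card := by
          refine Finset.card_le_card fun v hv => ?_
          rw [Finset.mem_filter] at hv
          rw [Finset.mem_Icc]
          omega
        rw [Nat.card_Icc] at h2
        have h3 := hr u hu
        omega

/-- Packing: one hundred times the sum of the radii over the positions of `U` in `[A, B]` is at most `B - A`.

PROOF. Induction on the number of elements of `U` in `[A, B]` (for all `B`). Let `B'` be the greatest element of `U` in `[A, B)` (it exists: `A`). If `B' = A` the sum is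
`r A + r B` and `100 (r A + r B) ≤ 200 max < B - A`. Otherwise `100 Σ_{[A, B']} ≤ B' - A` by induction and `100 r B ≤ 200 r B < B - B'`. -/
theorem packing {r : ℕ → ℕ} {U : Finset ℕ} (h : Spread r U) {A B : ℕ} (hA : A ∈ U) (hB : B ∈ U) (hAB : A < B) :
    100 * ∑ u ∈ U.filter (fun u => A ≤ u ∧ u ≤ B), r u ≤ B - A := by
  induction B using Nat.strong_induction_on with
  | _ B ih =>
    have hne : (U.filter (fun u => A ≤ u ∧ u < B)).Nonempty :=
      ⟨A, Finset.mem_filter.mpr ⟨hA, le_refl A, hAB⟩⟩
    obtain ⟨B', hB', hmax⟩ := Finset.exists_max_image _ id hne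
    rw [Finset.mem_filter] at hB'
    have hnot : B ∉ U.filter (fun u => A ≤ u ∧ u ≤ B') := by
      intro h
      rw [Finset.mem_filter] at h
      omega
    have heq : U.filter (fun u => A ≤ u ∧ u ≤ B) =
        insert B (U.filter (fun u => A ≤ u ∧ u ≤ B')) := by
      ext v
      rw [Finset.mem_insert, Finset.mem_filter, Finset.mem_filter]
      constructor
      · rintro ⟨h1, h2, h3⟩
        rcases Nat.lt_or_ge v B with h4 | h4
        · right
          have h5 := hmax v (Finset.mem_filter.mpr ⟨h1, h2, h4⟩)
          exact ⟨h1, h2, h5⟩
        · left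
          omega
      · rintro (h1 | ⟨h1, h2, h3⟩)
        · subst h1
          exact ⟨hB, by omega, le_refl _⟩
        · exact ⟨h1, h2, by omega⟩
    rw [heq, Finset.sum_insert hnot]
    rcases Nat.lt_or_ge A B' with h1 | h1
    · have h2 := ih B' hB'.2.2 hB'.1 h1
      have h3 := h B' hB'.1 B hB hB'.2.2
      omega
    · have h2 : B' = A := by omega
      subst h2
      have h3 : U.filter (fun u => B' ≤ u ∧ u ≤ B') = {B'} := by
        ext v
        rw [Finset.mem_filter, Finset.mem_singleton]
        constructor
        · rintro ⟨_, h4, h5⟩
          omega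
        · rintro rfl
          exact ⟨hA, le_refl _, le_refl _⟩
      rw [h3, Finset.sum_singleton]
      have h4 := h B' hA B hB hAB
      omega

end LC.Lin
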