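import Pool.Agent.Lib.MP_6bc8af_co.Mg.G009
import Pool.Agent.Lib.MP_6bc8af_co.Mg.G029

/-! MP_6bc8af_co, linear bound, TASK E04: two longest cycles have at least `k / 16000000` common vertices. -/

namespace LC.Lin

universe u

/-- **The linear bound.**

PROOF. As in the proof of `meet_bound` (file K07): `L = c.length = d.length`, `c' = c.getVert`, `d' = d.getVert` are `CycSeq G L` (`cycseq_of_walk`), `k + 1 ≤ L`
(`cycle_of_degree`, `degree_of_kconn`), `X = common c d` is the set of `exists_run`, and `m = X.ncard ≥ 1` (`meet_bound` with `ε = 1 / 2`: the left-hand side is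
positive, so `X.ncard ≠ 0`). If `k < 44` then `k ≤ 44 m`. Let `44 ≤ k`. `Lng G L c'`: `walk_of_cycseq` turns a `CycSeq` into a cycle, which is not longer than `c`.
`exists_run` gives `a`, `p` with `L ≤ m (a + 1)`. If `a = 0` then `k < L ≤ m`. Otherwise `main_ineq`: `k a ≤ 7939800 L ≤ 7939800 m (a + 1) ≤ 7939800 m (2 a)`, so
`k ≤ 15879600 m`. -/
theorem meet_linear {V : Type u} [Fintype V] {G : SimpleGraph V} {k : ℕ} (hk : 2 ≤ k) (hG : IsKConn G k)
    {a b : V} {c : G.Walk a a} {d : G.Walk b b} (hc : IsLongest c) (hd : IsLongest d) :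
    k ≤ 16000000 * (common c d).ncard := by
  have hlen : d.length = c.length := le_antisymm (hc.2 b d hd.1) (hd.2 a c hc.1)
  obtain ⟨hcs, hcsupp⟩ := cycseq_of_walk c hc.1
  obtain ⟨hds, hdsupp⟩ := cycseq_of_walk d hd.1
  rw [hlen] at hds hdsupp
  have : Nonempty V := ⟨a⟩
  obtain ⟨v, w, hw, hkw⟩ := cycle_of_degree hk (degree_of_kconn hG)
  have hkL : k + 1 ≤ c.length := hkw.trans (hc.2 v w hw)
  have hX : common c d = {v | (∃ i < c.length, c.getVert i = v) ∧
      (∃ j < c.length, d.getVert j = v)} := by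
    ext z
    show z ∈ c.support ∧ z ∈ d.support ↔ _
    rw [hcsupp, hdsupp]
    rfl
  have hm : 1 ≤ (common c d).ncard := by
    obtain ⟨c₀, hc₀, h⟩ := meet_bound.{u} (1 / 2) (by norm_num)
    have h1 := h V G k hk hG a b c d hc hd
    by_contra h0
    have h2 : (common c d).ncard = 0 := by omega
    rw [h2, Nat.cast_zero] at h1
    have hk0 : (0 : ℝ) < (k : ℝ) := by
      have : 0 < k := by omega
      exact_mod_cast this
    have h3 : 0 < c₀ * (k : ℝ) ^ (1 - 1 / 2 : ℝ) := mul_pos hc₀ (Real.rpow_pos_of_pos hk0 _)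
    linarith
  by_cases hk44 : k < 44
  · omega
  have hL : Lng G c.length c.getVert := ⟨hcs, fun n z hz => by
    obtain ⟨w', hw', hwl, -⟩ := walk_of_cycseq hz
    rw [← hwl]
    exact hc.2 _ w' hw'⟩
  have hne : (common c d).Nonempty := (Set.ncard_pos (Set.toFinite _)).1 hm
  obtain ⟨a', p, hp, hpC, hLe⟩ := exists_run hcs hds (common c d) hX hne
  by_cases ha : a' = 0
  · subst ha
    rw [Nat.zero_add, Nat.mul_one] at hLe
    omega
  have ha1 : 1 ≤ a' := by omega
  have h4 := main_ineq hG (by omega) hL hp hpC ha1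
  have h5 : (common c d).ncard * (a' + 1) ≤ (common c d).ncard * (2 * a') :=
    Nat.mul_le_mul_left _ (by omega)
  have h6 : k * a' ≤ (15879600 * (common c d).ncard) * a' := by
    calc k * a' ≤ 7939800 * c.length := h4
      _ ≤ 7939800 * ((common c d).ncard * (2 * a')) := Nat.mul_le_mul_left _ (hLe.trans h5)
      _ = (15879600 * (common c d).ncard) * a' := by ring
  have h7 : k ≤ 15879600 * (common c d).ncard := Nat.le_of_mul_le_mul_right h6 ha1
  omega

end LC.Lin
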