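import Pool.Agent.Lib.MP_6bc8af_co.Lin.E04
import Pool.Agent.Lib.MP_6bc8af_co.Mg.G029
import Pool.Agent.Lib.MP_6bc8af_co.Mg.G017

/-! MP_6bc8af_co, linear bound, file E05: assembly. -/

namespace LC.Lin

theorem linear_growth :
    (∀ k : ℕ, 2 ≤ k → ∀ (V : Type) [Fintype V] (G : SimpleGraph V), IsKConn G k →
      ∀ (a b : V) (c : G.Walk a a) (d : G.Walk b b), IsLongest c → IsLongest d →
        k ≤ 16000000 * (common c d).ncard) ∧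
    (∀ k : ℕ, 2 ≤ k → ∃ m : ℕ, k ≤ 16000000 * (m + 1) ∧ (m : ℕ∞) ≤ f k ∧ (m : ℕ∞) ≤ f' k) ∧
    (∀ k : ℕ, 3 ≤ k → f k ≤ ((2 * k - 1 : ℕ) : ℕ∞)) ∧
    ∀ k : ℕ, 1 ≤ k → f' k ≤ ((2 * k + 7 : ℕ) : ℕ∞) := by
  refine ⟨fun k hk V _ G hG a b c d hc hd => meet_linear hk hG hc hd, fun k hk => ?_, f_le, f'_le⟩
  have hc0 : (0 : ℝ) < 1 / 16000000 := by norm_num
  obtain ⟨m, h1, h2, h3⟩ := le_f 0 (1 / 16000000) hc0 (fun V _ G k hk hG a b c d hc hd => by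
    have h := meet_linear hk hG hc hd
    have h' : (k : ℝ) ≤ 16000000 * ((common c d).ncard : ℝ) := by exact_mod_cast h
    rw [sub_zero, Real.rpow_one]
    linarith) k hk
  refine ⟨m, ?_, h2, h3⟩
  rw [sub_zero, Real.rpow_one] at h1
  have h4 : (k : ℝ) ≤ 16000000 * ((m : ℝ) + 1) := by linarith
  exact_mod_cast h4

end LC.Lin
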